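import Pool.Agent.Work.MP_833881_lc.Defs

/-!
# Annotated `R(k)` refutations and their paths (MP_833881_lc)

An annotated refutation is a sequence of lines `L 0, ..., L (N - 1)` together with the rules (and the
numbers of the premises) by which the lines are obtained; the last line is the empty one. A path goes
from the last line to premises; the cut terms on it are recorded.
-/

set_option autoImplicit false

open Finset Classical

namespace Pool.Agent.Work.MP_833881_lc

/-- A rule, with the numbers of the premises and the terms on which it acts. -/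
inductive Rule (V : Type)
  | ax : Rule V
  | weak (a : ℕ) : Rule V
  | andI (a b : ℕ) (s t : Term V) : Rule V
  | cut (a b : ℕ) (t : Term V) : Rule V

variable {V : Type} [DecidableEq V]

/-- The line `L i` is obtained by the rule: it is an axiom of `F`, or follows from earlier lines by
weakening, `∧`-introduction (terms `s`, `t`) or a cut (with the cut term `t`). -/
def Follows (F : Set (Line V)) (L : ℕ → Line V) (i : ℕ) : Rule V → Prop
  | .ax => L i ∈ F
  | .weak a => a < i ∧ L a ⊆ L i
  | .andI a b s t => a < i ∧ b < i ∧ ∃ C C' : Line V,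
      L a = insert s C ∧ L b = insert t C' ∧ L i = insert (s ∪ t) (C ∪ C')
  | .cut a b t => a < i ∧ b < i ∧ ∃ C C' : Line V,
      L a = insert t C ∧ L b = C' ∪ negTerm t ∧ L i = C ∪ C'

/-- The lines `L 0, ..., L (N - 1)` with the rules `R` are an annotated `R(k)` refutation of `F`. -/
structure Annotated (k : ℕ) (F : Set (Line V)) (N : ℕ) (L : ℕ → Line V) (R : ℕ → Rule V) :
    Prop where
  dnf : ∀ i < N, ∀ t ∈ L i, 1 ≤ t.card ∧ t.card ≤ k
  rule : ∀ i < N, Follows F L i (R i)
  pos : 0 < N
  last : L (N - 1) = ∅

/-- `Path N R i l`: there is a path from the last line to the line number `i` (from conclusions to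
premises), `l` is the list of the cut terms on it. -/
inductive Path (N : ℕ) (R : ℕ → Rule V) : ℕ → List (Term V) → Prop
  | root : Path N R (N - 1) []
  | weak {i a : ℕ} {l : List (Term V)} : Path N R i l → R i = .weak a → Path N R a l
  | andL {i a b : ℕ} {s t : Term V} {l : List (Term V)} :
      Path N R i l → R i = .andI a b s t → Path N R a l
  | andR {i a b : ℕ} {s t : Term V} {l : List (Term V)} :
      Path N R i l → R i = .andI a b s t → Path N R b l
  | cutL {i a b : ℕ} {t : Term V} {l : List (Term V)} :
      Path N R i l → R i = .cut a b t → Path N R a (t :: l)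
  | cutR {i a b : ℕ} {t : Term V} {l : List (Term V)} :
      Path N R i l → R i = .cut a b t → Path N R b (t :: l)

/-- `t` is the conjunction of two different variables. -/
def PosPair (t : Term V) : Prop := ∃ x y : V, x ≠ y ∧ t = {(x, true), (y, true)}

/-- The number of cuts in the list `l` of cut terms whose cut term is a conjunction of two variables,
one of them `x`. -/
noncomputable def posCuts (l : List (Term V)) (x : V) : ℕ :=
  (l.filter fun t => decide (PosPair t ∧ (x, true) ∈ t)).length

/-- The refutation is regular: no variable occurs in two cut terms of a path. -/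
def Regular (N : ℕ) (R : ℕ → Rule V) : Prop :=
  ∀ (i : ℕ) (l : List (Term V)), Path N R i l → ∀ x : V,
    (l.filter fun t => decide ((x, true) ∈ t ∨ (x, false) ∈ t)).length ≤ 1

/-- The line `D` is light: there are a set `U` of at most `n^(2-ε)` variables and a set `J` of at most
`n^(1-ε)` holes such that every variable `x` outside `U` and `J` occurs in at most `n^(1-ε)` terms
`x ∧ y` of `D`, `y` a variable outside `U` and `J` whose pigeon and hole are different from those of
`x`. -/
def LightLine {n : ℕ} (ε : ℝ) (D : Line (Fin (n ^ 2) × Fin n)) : Prop :=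
  ∃ (U : Finset (Fin (n ^ 2) × Fin n)) (J : Finset (Fin n)),
    (U.card : ℝ) ≤ (n : ℝ) ^ (2 - ε) ∧ (J.card : ℝ) ≤ (n : ℝ) ^ (1 - ε) ∧
    ∀ x : Fin (n ^ 2) × Fin n, x ∉ U → x.2 ∉ J →
      ((Finset.univ.filter (fun y : Fin (n ^ 2) × Fin n => y ∉ U ∧ y.2 ∉ J ∧ x.1 ≠ y.1 ∧ x.2 ≠ y.2 ∧
        ({(x, true), (y, true)} : Term (Fin (n ^ 2) × Fin n)) ∈ D)).card : ℝ) ≤ (n : ℝ) ^ (1 - ε)

end Pool.Agent.Work.MP_833881_lc
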