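import Pool.Agent.Work.MP_833881_lp.GAME
import Pool.Agent.Work.MP_833881_lp.HALL
import Pool.Agent.Work.MP_833881_lp.CLO
import Pool.Agent.Work.MP_833881_lp.PRE
import Pool.Agent.Work.MP_833881_lp.POT
import Pool.Agent.Work.MP_833881_lp.LFM
import Pool.Agent.Work.MP_833881_lp.DET
import Pool.Agent.Work.MP_833881_lp.CHN
import Pool.Agent.Work.MP_833881_lp.CHD
import Pool.Agent.Work.MP_833881_lp.ENAB
import Pool.Agent.Work.MP_833881_lp.EN1
import Pool.Agent.Work.MP_833881_lp.EN2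
import Pool.Agent.Work.MP_833881_lp.EN3
import Pool.Agent.Work.MP_833881_lp.ENB
import Pool.Agent.Work.MP_833881_lp.MK
import Pool.Agent.Work.MP_833881_lp.LT
import Pool.Agent.Work.MP_833881_lp.P2
import Pool.Agent.Work.MP_833881_lp.S1W
import Pool.Agent.Work.MP_833881_lp.A1
import Pool.Agent.Work.MP_833881_lp.A2
import Pool.Agent.Work.MP_833881_lp.N3
import Pool.Agent.Work.MP_833881_lp.A3
import Pool.Agent.Work.MP_833881_lp.A4a
import Pool.Agent.Work.MP_833881_lp.A4b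
import Pool.Agent.Work.MP_833881_lp.A5a
import Pool.Agent.Work.MP_833881_lp.PPR
import Pool.Agent.Work.MP_833881_lp.PPH
import Pool.Agent.Work.MP_833881_lp.PPD
import Pool.Agent.Work.MP_833881_lp.N1
import Pool.Agent.Work.MP_833881_lp.ST1
import Pool.Agent.Work.MP_833881_lp.HD
import Pool.Agent.Work.MP_833881_lp.WP
import Pool.Agent.Work.MP_833881_lp.NOK
import Pool.Agent.Work.MP_833881_lp.WLD
import Pool.Agent.Work.MP_833881_lp.FIN
import Pool.Agent.Work.MP_833881_rg.Main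

/-!
The bound for refutations with light lines (helper82), from the blocks in `MP_833881_lp`.
-/

namespace Pool.Agent.Work.MP_833881_rg

open Pool.Agent.Work.MP_833881_lc
open Pool.Agent.Work.MP_833881_lp (stmt_GAME stmt_HALL stmt_CLO stmt_PRE stmt_POT stmt_LFM stmt_DET stmt_CHN
  stmt_CHD stmt_ENAB stmt_EN1 stmt_EN2 stmt_EN3 stmt_ENB stmt_MK stmt_LT stmt_P2 stmt_S1W stmt_A1 stmt_A2 stmt_N3
  stmt_A3 stmt_A4a stmt_A4b stmt_A5a stmt_PPR stmt_PPH stmt_PPD stmt_N1 stmt_ST1 stmt_HD stmt_WP stmt_NOK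
  stmt_WLD stmt_FIN)

theorem light : Light := by
  intro ε δ hε hδ
  have hLFM := stmt_LFM stmt_GAME (stmt_HALL stmt_GAME) (stmt_PRE stmt_GAME) (stmt_POT stmt_GAME stmt_CLO)
  have hDET := stmt_DET stmt_GAME (stmt_HALL stmt_GAME) hLFM
  have hENB := stmt_ENB stmt_EN1 stmt_EN2 stmt_EN3
  have hST1 := stmt_ST1 (stmt_S1W hENB) stmt_CHN stmt_CHD stmt_ENAB stmt_N1
  have hA3 := stmt_A3 stmt_CHN (stmt_P2 hENB stmt_MK stmt_LT) stmt_N3 stmt_ENAB
  have hWLD := stmt_WLD hST1 stmt_A1 stmt_A2 hA3 stmt_A4a stmt_A4b stmt_A5a stmt_PPR stmt_PPH stmt_PPD stmt_HD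
    (stmt_WP stmt_ENAB)
  obtain ⟨n0, h0⟩ := stmt_FIN hDET hWLD stmt_NOK ε δ hε hδ
  refine ⟨n0, fun n hn π hπ hU => h0 n hn π hπ (fun D hD => ?_)⟩
  obtain ⟨U, J, hU1, hJ1, hU2⟩ := hU D hD
  refine ⟨U, J, hU1, hJ1, fun x hx1 hx2 => le_trans (le_of_eq ?_) (hU2 x hx1 hx2)⟩
  have hs : ∀ (p : Fin (n ^ 2) × Fin n → Prop) (i1 i2 : DecidablePred p),
      (@Finset.filter _ p i1 Finset.univ).card = (@Finset.filter _ p i2 Finset.univ).card := by
    intro p i1 i2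
    have hi : i1 = i2 := Subsingleton.elim _ _
    rw [hi]
  exact_mod_cast hs _ _ _

end Pool.Agent.Work.MP_833881_rg
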