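import Pool.Agent.Work.MP_833881_rg.Paths

set_option autoImplicit false

open Finset Classical

namespace Pool.Agent.Work.MP_833881_lc

section
variable {V : Type} [DecidableEq V]

theorem pair_card {t : Term V} (h : PosPair t) : t.card = 2 := by
  obtain ⟨x, y, hxy, rfl⟩ := h
  rw [Finset.card_pair]
  intro he
  exact hxy (congrArg Prod.fst he)

theorem sum_deg [Fintype V] (D : Finset (Term V)) (h2 : ∀ t ∈ D, t.card ≤ 2) :
    ∑ x : V, (D.filter fun t => (x, true) ∈ t).card ≤ 2 * D.card := by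
  have h1 : ∀ x : V, (D.filter fun t => (x, true) ∈ t).card =
      ∑ t ∈ D, if (x, true) ∈ t then 1 else 0 := by
    intro x
    rw [Finset.card_filter]
  calc ∑ x : V, (D.filter fun t => (x, true) ∈ t).card
      = ∑ x : V, ∑ t ∈ D, (if (x, true) ∈ t then 1 else 0) := Finset.sum_congr rfl fun x _ => h1 x
    _ = ∑ t ∈ D, ∑ x : V, (if (x, true) ∈ t then 1 else 0) := Finset.sum_comm
    _ ≤ ∑ t ∈ D, 2 := by
        refine Finset.sum_le_sum fun t ht => ?_
        rw [← Finset.card_filter]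
        refine le_trans ?_ (h2 t ht)
        refine Finset.card_le_card_of_injOn (fun x => (x, true)) ?_ ?_
        · intro x hx
          simpa using hx
        · intro x _ y _ hxy
          exact congrArg Prod.fst hxy
    _ = 2 * D.card := by rw [Finset.sum_const, smul_eq_mul, mul_comm]

theorem card_le_list {α : Type} [DecidableEq α] (S : Finset α) (l : List α)
    (h : ∀ t ∈ S, t ∈ l) : S.card ≤ l.length :=
  le_trans (Finset.card_le_card fun t ht => List.mem_toFinset.2 (h t ht)) (List.toFinset_card_le l)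

/-- The positive 2-terms of a reachable line are cut terms of the path. -/
theorem pairs_sub {F : Set (Line V)} {N : ℕ} {L : ℕ → Line V} {R : ℕ → Rule V}
    (h : Annotated 2 F N L R) {i : ℕ} {l : List (Term V)} (hp : Path N R i l) :
    ((L i).filter PosPair).card ≤ (l.filter fun t => decide (PosPair t)).length := by
  refine card_le_list _ _ fun t ht => ?_
  rw [Finset.mem_filter] at ht
  rw [List.mem_filter]
  exact ⟨mem_path h hp t ht.1 (by rw [pair_card ht.2]), by simpa using ht.2⟩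

theorem pairs_sub_x {F : Set (Line V)} {N : ℕ} {L : ℕ → Line V} {R : ℕ → Rule V}
    (h : Annotated 2 F N L R) {i : ℕ} {l : List (Term V)} (hp : Path N R i l) (x : V) :
    (((L i).filter PosPair).filter fun t => (x, true) ∈ t).card ≤ posCuts l x := by
  unfold posCuts
  refine card_le_list _ _ fun t ht => ?_
  rw [Finset.mem_filter, Finset.mem_filter] at ht
  rw [List.mem_filter]
  exact ⟨mem_path h hp t ht.1.1 (by rw [pair_card ht.1.2]), by simpa using ⟨ht.1.2, ht.2⟩⟩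

end

/-- The bound for refutations with light lines. -/
def Light : Prop := ∀ ε δ : ℝ, 0 < ε → 0 < δ → ∃ n0 : ℕ, ∀ n ≥ n0,
    ∀ π : List (Line (Fin (n ^ 2) × Fin n)), IsRefutation 2 (ontoFPHP (n ^ 2) n) π →
      (∀ D ∈ π, LightLine ε D) → Real.exp ((n : ℝ) ^ (1 - δ)) ≤ π.length

theorem partners_le {n : ℕ} (D : Line (Fin (n ^ 2) × Fin n)) (U : Finset (Fin (n ^ 2) × Fin n))
    (J : Finset (Fin n)) (x : Fin (n ^ 2) × Fin n) :
    (Finset.univ.filter (fun y : Fin (n ^ 2) × Fin n => y ∉ U ∧ y.2 ∉ J ∧ x.1 ≠ y.1 ∧ x.2 ≠ y.2 ∧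
      ({(x, true), (y, true)} : Term (Fin (n ^ 2) × Fin n)) ∈ D)).card ≤
      ((D.filter PosPair).filter fun t => (x, true) ∈ t).card := by
  refine Finset.card_le_card_of_injOn
    (fun y => ({(x, true), (y, true)} : Term (Fin (n ^ 2) × Fin n))) ?_ ?_
  · intro y hy
    rw [Finset.mem_coe, Finset.mem_filter] at hy
    rw [Finset.mem_coe, Finset.mem_filter, Finset.mem_filter]
    exact ⟨⟨hy.2.2.2.2.2, x, y, fun he => hy.2.2.2.1 (congrArg Prod.fst he), rfl⟩,
      Finset.mem_insert_self _ _⟩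
  · intro y hy z hz hyz
    rw [Finset.mem_coe, Finset.mem_filter] at hy hz
    have h1 : (y, true) ∈ ({(x, true), (z, true)} : Term (Fin (n ^ 2) × Fin n)) := by
      have : ({(x, true), (y, true)} : Term (Fin (n ^ 2) × Fin n)) = {(x, true), (z, true)} := hyz
      rw [← this]; simp
    simp only [Finset.mem_insert, Finset.mem_singleton, Prod.mk.injEq, and_true] at h1
    rcases h1 with h1 | h1
    · exact absurd (congrArg Prod.fst h1.symm) hy.2.2.2.1
    · exact h1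

/-- (a) few positive 2-terms in each line. -/
theorem few_pairs (hL : Light) : ∀ ε δ : ℝ, 0 < ε → 0 < δ → ∃ n0 : ℕ, ∀ n ≥ n0,
    ∀ π : List (Line (Fin (n ^ 2) × Fin n)), IsRefutation 2 (ontoFPHP (n ^ 2) n) π →
      (∀ D ∈ π, ((D.filter PosPair).card : ℝ) ≤ (n : ℝ) ^ (3 - ε)) →
      Real.exp ((n : ℝ) ^ (1 - δ)) ≤ π.length := by
  intro ε δ hε hδ
  obtain ⟨n0, h0⟩ := hL (ε / 3) δ (by linarith) hδ
  obtain ⟨n1, h1⟩ := Filter.eventually_atTop.1
    ((tendsto_rpow_atTop (show (0 : ℝ) < ε / 3 by linarith)).comp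
      tendsto_natCast_atTop_atTop |>.eventually_ge_atTop (2 : ℝ))
  refine ⟨max (max n0 n1) 1, fun n hn π hπ hD => ?_⟩
  have hn0 : n0 ≤ n := le_trans (le_trans (le_max_left _ _) (le_max_left _ _)) hn
  have hn1 : n1 ≤ n := le_trans (le_trans (le_max_right _ _) (le_max_left _ _)) hn
  have hn2 : 1 ≤ n := le_trans (le_max_right _ _) hn
  have hnR : (0 : ℝ) < n := by exact_mod_cast hn2
  have h2 : (2 : ℝ) ≤ (n : ℝ) ^ (ε / 3) := h1 n hn1
  refine h0 n hn0 π hπ fun D hDπ => ?_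
  set c : ℝ := (n : ℝ) ^ (1 - ε / 3) with hc
  have hcpos : 0 < c := Real.rpow_pos_of_pos hnR _
  set dg : Fin (n ^ 2) × Fin n → ℕ :=
    fun x => ((D.filter PosPair).filter fun t => (x, true) ∈ t).card with hdg
  set U : Finset (Fin (n ^ 2) × Fin n) := univ.filter fun x => c < (dg x : ℝ) with hU
  have hsum : ∑ x, dg x ≤ 2 * (D.filter PosPair).card :=
    sum_deg (D.filter PosPair) fun t ht => by rw [pair_card (Finset.mem_filter.1 ht).2]
  refine ⟨U, ∅, ?_, ?_, ?_⟩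
  · have h3 : (U.card : ℝ) * c ≤ ((∑ x, dg x : ℕ) : ℝ) := by
      push_cast
      calc (U.card : ℝ) * c = ∑ _x ∈ U, c := by rw [Finset.sum_const, nsmul_eq_mul]
        _ ≤ ∑ x ∈ U, (dg x : ℝ) :=
            Finset.sum_le_sum fun x hx => le_of_lt (Finset.mem_filter.1 hx).2
        _ ≤ ∑ x, (dg x : ℝ) :=
            Finset.sum_le_sum_of_subset_of_nonneg (Finset.subset_univ _) fun _ _ _ => by positivity
    have h4 : ((∑ x, dg x : ℕ) : ℝ) ≤ 2 * (n : ℝ) ^ (3 - ε) := by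
      calc ((∑ x, dg x : ℕ) : ℝ) ≤ ((2 * (D.filter PosPair).card : ℕ) : ℝ) := by exact_mod_cast hsum
        _ = 2 * ((D.filter PosPair).card : ℝ) := by push_cast; ring
        _ ≤ 2 * (n : ℝ) ^ (3 - ε) := by have := hD D hDπ; linarith
    have h5 : 2 * (n : ℝ) ^ (3 - ε) ≤ (n : ℝ) ^ (2 - ε / 3) * c := by
      calc 2 * (n : ℝ) ^ (3 - ε) ≤ (n : ℝ) ^ (ε / 3) * (n : ℝ) ^ (3 - ε) :=
            mul_le_mul_of_nonneg_right h2 (Real.rpow_nonneg hnR.le _)
        _ = (n : ℝ) ^ (2 - ε / 3) * c := by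
            rw [hc, ← Real.rpow_add hnR, ← Real.rpow_add hnR]
            congr 1
            ring
    have h6 : (U.card : ℝ) * c ≤ (n : ℝ) ^ (2 - ε / 3) * c := h3.trans (h4.trans h5)
    exact le_of_mul_le_mul_right h6 hcpos
  · simp only [Finset.card_empty, Nat.cast_zero]
    exact Real.rpow_nonneg hnR.le _
  · intro x hx _
    have hx' : (dg x : ℝ) ≤ c := by
      by_contra hcon
      exact hx (Finset.mem_filter.2 ⟨Finset.mem_univ _, lt_of_not_ge hcon⟩)
    refine le_trans ?_ hx'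
    exact_mod_cast partners_le D U ∅ x

/-- (b) few cuts on positive 2-terms on each path. -/
theorem few_cuts (hL : Light) : ∀ ε δ : ℝ, 0 < ε → 0 < δ → ∃ n0 : ℕ, ∀ n ≥ n0,
    ∀ (N : ℕ) (L : ℕ → Line (Fin (n ^ 2) × Fin n)) (R : ℕ → Rule (Fin (n ^ 2) × Fin n)),
      Annotated 2 (ontoFPHP (n ^ 2) n) N L R →
      (∀ (i : ℕ) (l : List (Term (Fin (n ^ 2) × Fin n))), Path N R i l →
        ((l.filter fun t => decide (PosPair t)).length : ℝ) ≤ (n : ℝ) ^ (3 - ε)) →
      Real.exp ((n : ℝ) ^ (1 - δ)) ≤ N := by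
  intro ε δ hε hδ
  obtain ⟨n0, h0⟩ := few_pairs hL ε δ hε hδ
  refine ⟨n0, fun n hn N L R hA hl => ?_⟩
  obtain ⟨π, hπ, hlen, hreach⟩ := reach hA
  refine le_trans (h0 n hn π hπ fun D hD => ?_) (by exact_mod_cast hlen)
  obtain ⟨i, -, l, hp, rfl⟩ := hreach D hD
  refine le_trans ?_ (hl i l hp)
  exact_mod_cast pairs_sub hA hp

/-- (c) each variable in few positive cut terms of each path. -/
theorem light_cuts (hL : Light) : ∀ ε δ : ℝ, 0 < ε → 0 < δ → ∃ n0 : ℕ, ∀ n ≥ n0,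
    ∀ (N : ℕ) (L : ℕ → Line (Fin (n ^ 2) × Fin n)) (R : ℕ → Rule (Fin (n ^ 2) × Fin n)),
      Annotated 2 (ontoFPHP (n ^ 2) n) N L R →
      (∀ (i : ℕ) (l : List (Term (Fin (n ^ 2) × Fin n))), Path N R i l →
        ∀ x : Fin (n ^ 2) × Fin n, (posCuts l x : ℝ) ≤ (n : ℝ) ^ (1 - ε)) →
      Real.exp ((n : ℝ) ^ (1 - δ)) ≤ N := by
  intro ε δ hε hδ
  obtain ⟨n0, h0⟩ := hL ε δ hε hδ
  refine ⟨max n0 1, fun n hn N L R hA hl => ?_⟩
  have hn0 : n0 ≤ n := le_trans (le_max_left _ _) hn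
  have hn2 : 1 ≤ n := le_trans (le_max_right _ _) hn
  have hnR : (0 : ℝ) < n := by exact_mod_cast hn2
  obtain ⟨π, hπ, hlen, hreach⟩ := reach hA
  refine le_trans (h0 n hn0 π hπ fun D hD => ?_) (by exact_mod_cast hlen)
  obtain ⟨i, -, l, hp, rfl⟩ := hreach D hD
  refine ⟨∅, ∅, ?_, ?_, fun x _ _ => ?_⟩
  · simp only [Finset.card_empty, Nat.cast_zero]
    exact Real.rpow_nonneg hnR.le _
  · simp only [Finset.card_empty, Nat.cast_zero]
    exact Real.rpow_nonneg hnR.le _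
  · refine le_trans ?_ (hl i l hp x)
    exact_mod_cast (partners_le (L i) ∅ ∅ x).trans (pairs_sub_x hA hp x)

/-- (d) regular refutations. -/
theorem regular_bound (hL : Light) : ∀ δ : ℝ, 0 < δ → ∃ n0 : ℕ, ∀ n ≥ n0,
    ∀ (N : ℕ) (L : ℕ → Line (Fin (n ^ 2) × Fin n)) (R : ℕ → Rule (Fin (n ^ 2) × Fin n)),
      Annotated 2 (ontoFPHP (n ^ 2) n) N L R → Regular N R →
      Real.exp ((n : ℝ) ^ (1 - δ)) ≤ N := by
  intro δ hδ
  obtain ⟨n0, h0⟩ := light_cuts hL (1 / 2) δ (by norm_num) hδ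
  refine ⟨max n0 1, fun n hn N L R hA hR => ?_⟩
  have hn0 : n0 ≤ n := le_trans (le_max_left _ _) hn
  have hn2 : 1 ≤ n := le_trans (le_max_right _ _) hn
  have hn3 : (1 : ℝ) ≤ n := by exact_mod_cast hn2
  refine h0 n hn0 N L R hA fun i l hp x => ?_
  have h1 : posCuts l x ≤ 1 := by
    refine le_trans ?_ (hR i l hp x)
    unfold posCuts
    refine (List.monotone_filter_right l ?_).length_le
    intro t ht
    have ht' : PosPair t ∧ (x, true) ∈ t := by simpa using ht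
    simpa using Or.inl ht'.2
  calc (posCuts l x : ℝ) ≤ 1 := by exact_mod_cast h1
    _ ≤ (n : ℝ) ^ (1 - (1 / 2 : ℝ)) := Real.one_le_rpow hn3 (by norm_num)

end Pool.Agent.Work.MP_833881_lc
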