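import Pool.Agent.Work.MP_833881_rg.Defs

set_option autoImplicit false

open Finset Classical

namespace Pool.Agent.Work.MP_833881_lc

variable {V : Type} [DecidableEq V]

theorem path_lt {k : ℕ} {F : Set (Line V)} {N : ℕ} {L : ℕ → Line V} {R : ℕ → Rule V}
    (h : Annotated k F N L R) {i : ℕ} {l : List (Term V)} (hp : Path N R i l) : i < N := by
  induction hp with
  | root => have := h.pos; omega
  | weak _ hR ih =>
    have := h.rule _ ih
    rw [hR] at this
    exact this.1.trans ih
  | andL _ hR ih =>
    have := h.rule _ ih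
    rw [hR] at this
    exact this.1.trans ih
  | andR _ hR ih =>
    have := h.rule _ ih
    rw [hR] at this
    exact this.2.1.trans ih
  | cutL _ hR ih =>
    have := h.rule _ ih
    rw [hR] at this
    exact this.1.trans ih
  | cutR _ hR ih =>
    have := h.rule _ ih
    rw [hR] at this
    exact this.2.1.trans ih

/-- The 2-terms of a line are cut terms on every path to the line. -/
theorem mem_path {F : Set (Line V)} {N : ℕ} {L : ℕ → Line V} {R : ℕ → Rule V}
    (h : Annotated 2 F N L R) {i : ℕ} {l : List (Term V)} (hp : Path N R i l) :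
    ∀ t ∈ L i, 2 ≤ t.card → t ∈ l := by
  induction hp with
  | root => intro t ht; rw [h.last] at ht; simp at ht
  | @weak i a l hi hR ih =>
    have := h.rule _ (path_lt h hi)
    rw [hR] at this
    exact fun t ht h2 => ih t (this.2 ht) h2
  | @andL i a b s t l hi hR ih =>
    have hN := path_lt h hi
    have := h.rule _ hN
    rw [hR] at this
    obtain ⟨-, -, C, C', ha, hb, hc⟩ := this
    intro u hu h2
    rw [ha, Finset.mem_insert] at hu
    rcases hu with hu | hu
    · subst hu
      have hm : u ∪ t ∈ L i := by rw [hc]; exact Finset.mem_insert_self _ _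
      have hcard := (h.dnf i hN _ hm).2
      have he : u = u ∪ t := Finset.eq_of_subset_of_card_le Finset.subset_union_left (by omega)
      exact ih u (he ▸ hm) h2
    · exact ih u (by rw [hc]; simp [hu]) h2
  | @andR i a b s t l hi hR ih =>
    have hN := path_lt h hi
    have := h.rule _ hN
    rw [hR] at this
    obtain ⟨-, -, C, C', ha, hb, hc⟩ := this
    intro u hu h2
    rw [hb, Finset.mem_insert] at hu
    rcases hu with hu | hu
    · subst hu
      have hm : s ∪ u ∈ L i := by rw [hc]; exact Finset.mem_insert_self _ _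
      have hcard := (h.dnf i hN _ hm).2
      have he : u = s ∪ u := Finset.eq_of_subset_of_card_le Finset.subset_union_right (by omega)
      exact ih u (he ▸ hm) h2
    · exact ih u (by rw [hc]; simp [hu]) h2
  | @cutL i a b t l hi hR ih =>
    have := h.rule _ (path_lt h hi)
    rw [hR] at this
    obtain ⟨-, -, C, C', ha, hb, hc⟩ := this
    intro u hu h2
    rw [ha, Finset.mem_insert] at hu
    rcases hu with hu | hu
    · subst hu
      exact List.mem_cons_self
    · exact List.mem_cons_of_mem _ (ih u (by rw [hc]; simp [hu]) h2)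
  | @cutR i a b t l hi hR ih =>
    have := h.rule _ (path_lt h hi)
    rw [hR] at this
    obtain ⟨-, -, C, C', ha, hb, hc⟩ := this
    intro u hu h2
    rw [hb, Finset.mem_union] at hu
    rcases hu with hu | hu
    · exact List.mem_cons_of_mem _ (ih u (by rw [hc]; simp [hu]) h2)
    · exfalso
      unfold negTerm at hu
      rw [Finset.mem_image] at hu
      obtain ⟨x, -, rfl⟩ := hu
      simp at h2

/-- The reachable lines form a refutation. -/
theorem reach {k : ℕ} {F : Set (Line V)} {N : ℕ} {L : ℕ → Line V} {R : ℕ → Rule V}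
    (h : Annotated k F N L R) : ∃ π : List (Line V), IsRefutation k F π ∧ π.length ≤ N ∧
      ∀ D ∈ π, ∃ i < N, ∃ l, Path N R i l ∧ D = L i := by
  set p : ℕ → Bool := fun i => decide (∃ l, Path N R i l) with hp
  set idx := (List.range N).filter p with hidx
  have hmem : ∀ i, i ∈ idx ↔ i < N ∧ ∃ l, Path N R i l := by
    intro i
    rw [hidx, List.mem_filter, List.mem_range, hp]
    simp
  have hsort : idx.Pairwise (· < ·) := (List.pairwise_lt_range (n := N)).filter _
  refine ⟨idx.map L, ⟨?_, ?_, ?_⟩, ?_, ?_⟩
  · intro D hD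
    obtain ⟨i, hi, rfl⟩ := List.mem_map.1 hD
    exact h.dnf i ((hmem i).1 hi).1
  · intro pre D suf hE
    obtain ⟨l1, l2, he, h1, h2⟩ := List.map_eq_append_iff.1 hE
    obtain ⟨i, l3, h3, h4, h5⟩ := List.map_eq_cons_iff.1 h2
    subst h3
    have hi : i ∈ idx := by rw [he]; simp
    have hiN := ((hmem i).1 hi).1
    obtain ⟨l, hl⟩ := ((hmem i).1 hi).2
    have key : ∀ a, a < i → (∃ l, Path N R a l) → L a ∈ pre := by
      intro a hai hal
      have ha : a ∈ idx := (hmem a).2 ⟨hai.trans hiN, hal⟩
      rw [he, List.mem_append] at ha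
      rw [he] at hsort
      have hs := (List.pairwise_append.1 hsort).2.1
      rcases ha with ha | ha
      · rw [← h1]; exact List.mem_map_of_mem ha
      · exfalso
        rcases List.mem_cons.1 ha with ha | ha
        · omega
        · have := (List.pairwise_cons.1 hs).1 a ha
          omega
    have hr := h.rule i hiN
    rw [← h4]
    rcases hR : R i with _ | a | ⟨a, b, s, t⟩ | ⟨a, b, t⟩
    · rw [hR] at hr
      exact Infer.ax hr
    · rw [hR] at hr
      exact Infer.weak (A := L a) (key a hr.1 ⟨l, hl.weak hR⟩) hr.2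
    · rw [hR] at hr
      obtain ⟨h1', h2', C, C', ha, hb, hc⟩ := hr
      rw [hc]
      refine Infer.andI ?_ ?_
      · have := key a h1' ⟨l, hl.andL hR⟩
        rwa [ha] at this
      · have := key b h2' ⟨l, hl.andR hR⟩
        rwa [hb] at this
    · rw [hR] at hr
      obtain ⟨h1', h2', C, C', ha, hb, hc⟩ := hr
      rw [hc]
      refine Infer.cut (t := t) ?_ ?_
      · have := key a h1' ⟨_, hl.cutL hR⟩
        rwa [ha] at this
      · have := key b h2' ⟨_, hl.cutR hR⟩
        rwa [hb] at this
  · have : N - 1 ∈ idx := (hmem _).2 ⟨by have := h.pos; omega, [], Path.root⟩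
    have := List.mem_map_of_mem (f := L) this
    rwa [h.last] at this
  · rw [List.length_map]
    calc idx.length ≤ (List.range N).length := List.length_filter_le _ _
      _ = N := List.length_range
  · intro D hD
    obtain ⟨i, hi, rfl⟩ := List.mem_map.1 hD
    obtain ⟨h1, l, h2⟩ := (hmem i).1 hi
    exact ⟨i, h1, l, h2, rfl⟩

end Pool.Agent.Work.MP_833881_lc
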